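import Pool.Agent.Y78.LX.Final

/-!
# Edges of geometric graphs forced to meet one line: the linear growth of `f(n, k)`

A geometric graph on `n` points is a set of `n` points of the plane, no three on a line, with some
of the segments between them as edges; `f n k` is the least `e` such that every geometric graph on
`n` points with at least `e` edges has a line that meets the relative interiors of at least `k` of
its edges.

Every odd `k` is `r (r + 1) + 2 j + 1` for exactly one pair `j ≤ r`.  For such `k`, and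
`n ≥ 2 r + 3`,

  `n (r + j / (r + 1)) - j < f n k ≤ n (r + j / (r + 1)) + (r + 2) ^ 2`.

For every `k ≥ 1` and `n ≥ 2 √k + 3`, `f n k` differs from `(√k - 1 / 2) n` by at most
`2 n / √k + 3 k`.
-/

set_option autoImplicit false

namespace Pool.Agent.Results.MP_b5bf4a_co.LinearGrowth

open Pool.Agent.Y78.LX

theorem result :
    (∀ n r j : ℕ, j ≤ r → 2 * r + 3 ≤ n →
      (n : ℝ) * (r + j / (r + 1)) - j < f n (r * (r + 1) + 2 * j + 1) ∧
        (f n (r * (r + 1) + 2 * j + 1) : ℝ) ≤ n * (r + j / (r + 1)) + (r + 2) ^ 2) ∧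
    (∀ n k : ℕ, 1 ≤ k → 2 * √(k : ℝ) + 3 ≤ n →
      |(f n k : ℝ) - (√(k : ℝ) - 1 / 2) * n| ≤ 2 * n / √(k : ℝ) + 3 * k) :=
  ⟨fun _ _ _ hj hn => odd_case hj hn, fun _ _ hk hn => all_case hk hn⟩

end Pool.Agent.Results.MP_b5bf4a_co.LinearGrowth
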